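import Mathlib

/-!
# Ramsey numbers of colourings whose red graph has small rank over the field with two elements

Definitions and basic facts on the symplectic form `om` on `Vec m`, the `2 m`-dimensional space of
the families of `m` pairs over `ZMod 2`.
-/

set_option autoImplicit false

namespace Pool.Agent.Q110.RK

/-- `S` is a clique or an independent set of the (red) graph `G`, i.e. monochromatic. -/
def Mono {V : Type} (G : SimpleGraph V) (S : Finset V) : Prop :=
  G.IsClique (S : Set V) ∨ Gᶜ.IsClique (S : Set V)

open Classical in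
/-- The rank over the field with two elements of the adjacency matrix of `G`. -/
noncomputable def rankTwo {V : Type} [Fintype V] (G : SimpleGraph V) : ℕ :=
  (G.adjMatrix (ZMod 2)).rank

/-- The least `n` such that for `N ≥ n` every graph of rank at most `r` over the field with two
elements on `N` vertices has a clique or an independent set of size `k`. -/
noncomputable def ramseyRank (r k : ℕ) : ℕ :=
  sInf {n : ℕ | ∀ N ≥ n, ∀ G : SimpleGraph (Fin N), rankTwo G ≤ r →
    ∃ S : Finset (Fin N), S.card = k ∧ Mono G S}

/-- The symplectic space of dimension `2 m`. -/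
abbrev Vec (m : ℕ) : Type := Fin m → ZMod 2 × ZMod 2

/-- The symplectic form. -/
def om {m : ℕ} (v w : Vec m) : ZMod 2 := ∑ i, ((v i).1 * (w i).2 + (v i).2 * (w i).1)

lemma om_comm {m : ℕ} (v w : Vec m) : om v w = om w v := by
  unfold om
  exact Finset.sum_congr rfl fun i _ => by ring

lemma two_zero : (2 : ZMod 2) = 0 := rfl

lemma om_self {m : ℕ} (v : Vec m) : om v v = 0 := by
  unfold om
  refine Finset.sum_eq_zero fun i _ => ?_
  rw [mul_comm (v i).2 (v i).1, ← two_mul, two_zero, zero_mul]

lemma om_add_left {m : ℕ} (u v w : Vec m) : om (u + v) w = om u w + om v w := by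
  unfold om
  rw [← Finset.sum_add_distrib]
  refine Finset.sum_congr rfl fun i _ => ?_
  simp only [Pi.add_apply, Prod.fst_add, Prod.snd_add]
  ring

lemma om_smul_left {m : ℕ} (c : ZMod 2) (v w : Vec m) : om (c • v) w = c * om v w := by
  unfold om
  rw [Finset.mul_sum]
  refine Finset.sum_congr rfl fun i _ => ?_
  simp only [Pi.smul_apply, Prod.smul_fst, Prod.smul_snd, smul_eq_mul]
  ring

lemma om_add_right {m : ℕ} (u v w : Vec m) : om u (v + w) = om u v + om u w := by
  rw [om_comm, om_add_left, om_comm v, om_comm w]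

lemma om_smul_right {m : ℕ} (c : ZMod 2) (v w : Vec m) : om v (c • w) = c * om v w := by
  rw [om_comm, om_smul_left, om_comm w]

@[simp] lemma om_zero_left {m : ℕ} (w : Vec m) : om 0 w = 0 := by
  unfold om; simp

@[simp] lemma om_zero_right {m : ℕ} (w : Vec m) : om w 0 = 0 := by
  unfold om; simp

/-- The symplectic form as a bilinear form. -/
def omB (m : ℕ) : LinearMap.BilinForm (ZMod 2) (Vec m) :=
  LinearMap.mk₂ (ZMod 2) om om_add_left om_smul_left om_add_right om_smul_right

@[simp] lemma omB_apply {m : ℕ} (v w : Vec m) : omB m v w = om v w := rfl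

lemma om_single_left {m : ℕ} (i : Fin m) (p : ZMod 2 × ZMod 2) (w : Vec m) :
    om (Pi.single i p) w = p.1 * (w i).2 + p.2 * (w i).1 := by
  unfold om
  rw [Finset.sum_eq_single i]
  · simp
  · intro j _ hj
    simp [Pi.single_eq_of_ne hj]
  · intro h
    exact absurd (Finset.mem_univ i) h

lemma eq_zero_of_om {m : ℕ} (w : Vec m) (h : ∀ v, om v w = 0) : w = 0 := by
  funext i
  have h1 := h (Pi.single i (1, 0))
  have h2 := h (Pi.single i (0, 1))
  rw [om_single_left] at h1 h2
  ext
  · simpa using h2
  · simpa using h1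

lemma omB_isRefl (m : ℕ) : (omB m).IsRefl := by
  intro v w h
  rw [omB_apply] at h ⊢
  rw [om_comm]; exact h

lemma omB_nondegenerate (m : ℕ) : (omB m).Nondegenerate := by
  constructor
  · intro w h
    exact eq_zero_of_om w fun v => by
      have := h v
      rw [omB_apply] at this
      rw [om_comm]; exact this
  · intro w h
    exact eq_zero_of_om w fun v => by
      have := h v
      rwa [omB_apply] at this

lemma finrank_Vec (m : ℕ) : Module.finrank (ZMod 2) (Vec m) = 2 * m := by
  rw [Module.finrank_pi_fintype]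
  simp [Module.finrank_prod]
  ring

lemma card_Vec (m : ℕ) : Fintype.card (Vec m) = 4 ^ m := by
  rw [Fintype.card_fun, Fintype.card_prod, ZMod.card, Fintype.card_fin]

/-- the number of vectors of a subspace -/
lemma card_submodule {m : ℕ} (U : Submodule (ZMod 2) (Vec m)) :
    Nat.card U = 2 ^ Module.finrank (ZMod 2) U := by
  have : Fintype U := Fintype.ofFinite _
  rw [Nat.card_eq_fintype_card, Module.card_eq_pow_finrank (K := ZMod 2) (V := U), ZMod.card]

/-- the dimension of the orthogonal complement -/
lemma finrank_orthogonal {m : ℕ} (U : Submodule (ZMod 2) (Vec m)) :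
    Module.finrank (ZMod 2) ((omB m).orthogonal U) = 2 * m - Module.finrank (ZMod 2) U := by
  rw [LinearMap.BilinForm.finrank_orthogonal (omB_nondegenerate m) U, finrank_Vec]

lemma mem_orthogonal {m : ℕ} (U : Submodule (ZMod 2) (Vec m)) (w : Vec m) :
    w ∈ (omB m).orthogonal U ↔ ∀ u ∈ U, om u w = 0 := by
  rw [LinearMap.BilinForm.mem_orthogonal_iff]
  rfl

/-- A quadratic form with polar form `om` and with few zeros (`m ≥ 1`). -/
def qu {m : ℕ} (v : Vec (m + 1)) : ZMod 2 := (∑ i, (v i).1 * (v i).2) + ((v 0).1 + (v 0).2)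

lemma qu_add {m : ℕ} (v w : Vec (m + 1)) : qu (v + w) = qu v + qu w + om v w := by
  unfold qu om
  have : (∑ i, ((v + w) i).1 * ((v + w) i).2) = (∑ i, (v i).1 * (v i).2) +
      (∑ i, (w i).1 * (w i).2) + ∑ i, ((v i).1 * (w i).2 + (v i).2 * (w i).1) := by
    rw [← Finset.sum_add_distrib, ← Finset.sum_add_distrib]
    refine Finset.sum_congr rfl fun i _ => ?_
    simp only [Pi.add_apply, Prod.fst_add, Prod.snd_add]
    ring
  rw [this]
  simp only [Pi.add_apply, Prod.fst_add, Prod.snd_add]
  ring

end Pool.Agent.Q110.RK
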