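import Pool.Agent.Q110.RK.Stm

set_option autoImplicit false

namespace Pool.Agent.Q110.RK

open Finset Module

/-- many vertices have a monochromatic `K_k` -/
lemma frame_aux (hfac : S_factor) (hspr : S_spread) {r k N : ℕ} (hk : 1 ≤ k)
    (hN : (k - 1) * (2 ^ (r / 2) + 1) + 1 ≤ N) (G : SimpleGraph (Fin N)) (hG : rankTwo G ≤ r) :
    ∃ S : Finset (Fin N), #S = k ∧ Mono G S := by
  classical
  set m := r / 2 with hm
  have hr : rankTwo G ≤ 2 * m + 1 := hG.trans (by omega)
  obtain ⟨φ, hφ⟩ := hfac (Fin N) m (G.adjMatrix (ZMod 2)) (fun x y => by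
      simp only [SimpleGraph.adjMatrix_apply, G.adj_comm x y]) (fun x => by simp) (by
      unfold rankTwo at hr
      convert hr)
  obtain ⟨f, hf⟩ := hspr m
  have hcard : #(univ : Finset (Fin (2 ^ m + 1))) * (k - 1) < #(univ : Finset (Fin N)) := by
    rw [card_univ, card_univ, Fintype.card_fin, Fintype.card_fin, mul_comm]
    omega
  obtain ⟨c, -, hc⟩ := exists_lt_card_fiber_of_mul_lt_card_of_maps_to
    (f := fun x : Fin N => f (φ x)) (s := univ) (t := univ) (fun x _ => mem_univ _) hcard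
  obtain ⟨S, hS, hSk⟩ := exists_subset_card_eq (show k ≤ #(univ.filter fun x => f (φ x) = c) by
    omega)
  refine ⟨S, hSk, Or.inr ?_⟩
  intro x hx y hy hxy
  rw [SimpleGraph.compl_adj]
  refine ⟨hxy, fun hadj => ?_⟩
  have hx' := (mem_filter.1 (hS hx)).2
  have hy' := (mem_filter.1 (hS hy)).2
  have h0 := hf (φ x) (φ y) (hx'.trans hy'.symm)
  have h1 := hφ x y
  rw [h0, SimpleGraph.adjMatrix_apply, if_pos hadj] at h1
  exact one_ne_zero h1

/-- the graph of a map into the symplectic space -/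
def gr {V : Type} {m : ℕ} (φ : V → Vec m) : SimpleGraph V where
  Adj x y := om (φ x) (φ y) = 1
  symm := ⟨by intro x y h; rw [om_comm]; exact h⟩
  loopless := ⟨fun x h => by rw [om_self] at h; exact zero_ne_one h⟩

lemma zmod_two_cases (a : ZMod 2) : a = 0 ∨ a = 1 := by
  revert a; decide

lemma rankTwo_gr (hrk : S_rank) {V : Type} [Fintype V] {m : ℕ} (φ : V → Vec m) :
    rankTwo (gr φ) ≤ 2 * m := by
  classical
  unfold rankTwo
  refine le_trans (le_of_eq ?_) (hrk V m φ)
  congr 1
  ext x y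
  rw [SimpleGraph.adjMatrix_apply, Matrix.of_apply]
  have hiff : (gr φ).Adj x y ↔ om (φ x) (φ y) = 1 := Iff.rfl
  rcases zmod_two_cases (om (φ x) (φ y)) with h | h
  · rw [h, if_neg (by rw [hiff, h]; exact zero_ne_one)]
  · rw [h, if_pos (by rw [hiff, h])]

theorem frame (hfac : S_factor) (hspr : S_spread) (hrk : S_rank) : S_frame := by
  classical
  have hne : ∀ r k : ℕ, 1 ≤ k → (k - 1) * (2 ^ (r / 2) + 1) + 1 ∈
      {n : ℕ | ∀ N ≥ n, ∀ G : SimpleGraph (Fin N), rankTwo G ≤ r →
        ∃ S : Finset (Fin N), S.card = k ∧ Mono G S} := by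
    intro r k hk N hN G hG
    exact frame_aux hfac hspr hk hN G hG
  refine ⟨fun r k hk => Nat.sInf_le (hne r k hk), ?_⟩
  intro V _ _ m k r φ hmr hI hC
  have hk : 1 ≤ k := by
    have := hI ∅ (by simp)
    rw [card_empty] at this
    omega
  by_contra hcon
  push Not at hcon
  have hmem := Nat.sInf_mem ⟨_, hne r k hk⟩
  set e := Fintype.equivFin V with he
  set ψ : Fin (Fintype.card V) → Vec m := fun i => φ (e.symm i) with hψ
  obtain ⟨S, hSk, hS⟩ := hmem (Fintype.card V) hcon (gr ψ) ((rankTwo_gr hrk ψ).trans hmr)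
  have hcardmap : #(S.map e.symm.toEmbedding) = k := by rw [card_map, hSk]
  rcases hS with hS | hS
  · have := hC (S.map e.symm.toEmbedding) (by
      intro x hx y hy hxy
      rw [mem_map] at hx hy
      obtain ⟨i, hi, rfl⟩ := hx
      obtain ⟨j, hj, rfl⟩ := hy
      have hij : i ≠ j := fun h => hxy (by rw [h])
      exact hS (by exact_mod_cast hi) (by exact_mod_cast hj) hij)
    omega
  · have := hI (S.map e.symm.toEmbedding) (by
      intro x hx y hy
      rw [mem_map] at hx hy
      obtain ⟨i, hi, rfl⟩ := hx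
      obtain ⟨j, hj, rfl⟩ := hy
      by_cases hij : i = j
      · rw [hij, om_self]
      · have h1 := hS (by exact_mod_cast hi) (by exact_mod_cast hj) hij
        rw [SimpleGraph.compl_adj] at h1
        rcases zmod_two_cases (om (ψ i) (ψ j)) with h | h
        · exact h
        · exact absurd h h1.2)
    omega

end Pool.Agent.Q110.RK
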