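import Pool.Agent.Q110.RK.Stm

set_option autoImplicit false

namespace Pool.Agent.Q110.RK

/-- lower growth rate from the lower bound -/
theorem growth_lower (F : ℕ → ℕ → ℕ)
    (hlow : ∀ m k r : ℕ, 1 ≤ m → m ≤ k → 2 * m ≤ r →
      (k : ℝ) / 16 * 2 ^ ((m : ℝ) - (m : ℝ) ^ 2 / (2 * k)) < F r k)
    (c : ℝ) (hc : 0 ≤ c) (hc1 : c ≤ 1) (ε : ℝ) (hε : 0 < ε) : ∃ K : ℕ, ∀ k ≥ K,
      (c - c ^ 2 / 2) * Real.log 2 - ε ≤ Real.log (F ⌊2 * c * k⌋₊ k) / k := by
  have hlog2 : 0 < Real.log 2 := Real.log_pos (by norm_num)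
  have hlog21 : Real.log 2 < 1 := by
    have := Real.log_two_lt_d9
    linarith
  rcases hc.eq_or_lt with rfl | hc0
  · refine ⟨0, fun k _ => ?_⟩
    have h1 : 0 ≤ Real.log (F ⌊2 * (0 : ℝ) * k⌋₊ k) / k :=
      div_nonneg (Real.log_natCast_nonneg _) (Nat.cast_nonneg _)
    have h2 : ((0 : ℝ) - 0 ^ 2 / 2) * Real.log 2 - ε ≤ 0 := by
      norm_num
      exact hε.le
    linarith
  · refine ⟨max 16 (max ⌈1 / c⌉₊ ⌈1 / ε⌉₊), fun k hk => ?_⟩
    have hk16 : 16 ≤ k := (le_max_left _ _).trans hk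
    have hkc : ⌈1 / c⌉₊ ≤ k := ((le_max_left _ _).trans (le_max_right _ _)).trans hk
    have hke : ⌈1 / ε⌉₊ ≤ k := ((le_max_right _ _).trans (le_max_right _ _)).trans hk
    have hk16r : (16 : ℝ) ≤ k := by exact_mod_cast hk16
    have hkcr : 1 / c ≤ k := Nat.ceil_le.1 hkc
    have hker : 1 / ε ≤ k := Nat.ceil_le.1 hke
    have hk0 : (0 : ℝ) < k := by linarith
    have hck : 1 ≤ c * k := by
      rw [div_le_iff₀ hc0] at hkcr
      linarith [mul_comm (k : ℝ) c]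
    have hek : 1 ≤ ε * k := by
      rw [div_le_iff₀ hε] at hker
      linarith [mul_comm (k : ℝ) ε]
    set m : ℕ := ⌊c * (k : ℝ)⌋₊ with hm
    have hm1 : 1 ≤ m := Nat.le_floor (by simpa using hck)
    have hmle : (m : ℝ) ≤ c * k := Nat.floor_le (by positivity)
    have hmgt : c * k - 1 < m := by
      have := Nat.lt_floor_add_one (c * (k : ℝ))
      rw [← hm] at this
      linarith
    have hmk : m ≤ k := by
      have : (m : ℝ) ≤ k := hmle.trans (by nlinarith)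
      exact_mod_cast this
    have h2m : 2 * m ≤ ⌊2 * c * (k : ℝ)⌋₊ := by
      apply Nat.le_floor
      push_cast
      linarith
    have h1 := hlow m k _ hm1 hmk h2m
    set F' : ℝ := (F ⌊2 * c * (k : ℝ)⌋₊ k : ℝ) with hF
    have hpos : 0 < (k : ℝ) / 16 * 2 ^ ((m : ℝ) - (m : ℝ) ^ 2 / (2 * k)) := by positivity
    have h2 := Real.log_le_log hpos h1.le
    rw [Real.log_mul (by positivity) (by positivity), Real.log_rpow (by norm_num)] at h2
    have h3 : 0 ≤ Real.log ((k : ℝ) / 16) := Real.log_nonneg (by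
      rw [le_div_iff₀ (by norm_num)]
      linarith)
    have h4 : (m : ℝ) ^ 2 / (2 * k) ≤ c ^ 2 / 2 * k := by
      rw [div_le_iff₀ (by positivity)]
      have : (m : ℝ) ^ 2 ≤ (c * k) ^ 2 := pow_le_pow_left₀ (Nat.cast_nonneg _) hmle 2
      nlinarith
    have h5 : (c * k - 1 - c ^ 2 / 2 * k) * Real.log 2 ≤
        ((m : ℝ) - (m : ℝ) ^ 2 / (2 * k)) * Real.log 2 :=
      mul_le_mul_of_nonneg_right (by linarith) hlog2.le
    rw [le_div_iff₀ hk0]
    nlinarith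

end Pool.Agent.Q110.RK
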