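import Pool.Agent.Q110.RK.Stm

set_option autoImplicit false

namespace Pool.Agent.Q110.RK

open Finset Module

/-- the lower bound by random vectors -/
theorem lower (hframe : S_frame) (huni : S_union) (hict : S_iso_tuples)
    (hcct : S_clique_tuples) (hnum : S_num) :
    ∀ m k r : ℕ, 1 ≤ m → m ≤ k → 2 * m ≤ r →
      (k : ℝ) / 16 * 2 ^ ((m : ℝ) - (m : ℝ) ^ 2 / (2 * k)) < ramseyRank r k := by
  classical
  intro m k r hm hmk hmr
  set x : ℝ := (k : ℝ) / 16 * 2 ^ ((m : ℝ) - (m : ℝ) ^ 2 / (2 * k)) with hx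
  have hx0 : 0 ≤ x := by positivity
  set N : ℕ := ⌊x⌋₊ with hN
  have hNx : (N : ℝ) ≤ x := Nat.floor_le hx0
  have h1 := hnum.1 m k N hm hmk hNx
  set I := #(univ.filter fun v : Fin k → Vec m => ∀ i j, om (v i) (v j) = 0) with hI
  set C := #(univ.filter fun v : Fin k → Vec m => ∀ i j, i ≠ j → om (v i) (v j) = 1) with hC
  have h2 : I ≤ 2 ^ (k + m * k + m * (m + 1) / 2) := hict m k
  have h3 : C ≤ 2 ^ (k + m * k + m * (m + 1) / 2) := by
    have h4 := hcct m k
    have h5 := hnum.2 m k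
    have h6 : (2 : ℕ) ^ (2 * m * k) ≤
        2 ^ (k + m * k + m * (m + 1) / 2) * 2 ^ ((k - 1) * (k - 2) / 2) := by
      rw [← pow_add]
      exact Nat.pow_le_pow_right (by norm_num) h5
    exact Nat.le_of_mul_le_mul_right (h4.trans h6) (by positivity)
  have h4 : N.choose k * (I + C) < 4 ^ (m * k) := by
    refine lt_of_le_of_lt ?_ h1
    refine Nat.mul_le_mul_left _ ?_
    have : (2 : ℕ) ^ (k + 1 + m * k + m * (m + 1) / 2) =
        2 ^ (k + m * k + m * (m + 1) / 2) + 2 ^ (k + m * k + m * (m + 1) / 2) := by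
      rw [← two_mul, ← pow_succ']
      congr 1
      ring
    rw [this]
    exact Nat.add_le_add h2 h3
  obtain ⟨φ, hφ⟩ := huni m k N h4
  have key : ∀ S : Finset (Fin N), ((∀ x ∈ S, ∀ y ∈ S, om (φ x) (φ y) = 0) ∨
      ∀ x ∈ S, ∀ y ∈ S, x ≠ y → om (φ x) (φ y) = 1) → #S < k := by
    intro S hS
    by_contra hcon
    push Not at hcon
    obtain ⟨T, hTS, hT⟩ := exists_subset_card_eq hcon
    obtain ⟨hT1, hT2⟩ := hφ T hT
    rcases hS with hS | hS
    · exact hT1 fun x hx y hy => hS x (hTS hx) y (hTS hy)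
    · exact hT2 fun x hx y hy hxy => hS x (hTS hx) y (hTS hy) hxy
  have h5 := hframe.2 (Fin N) m k r φ hmr (fun S hS => key S (Or.inl hS))
    (fun S hS => key S (Or.inr hS))
  rw [Fintype.card_fin] at h5
  have h6 : x < N + 1 := Nat.lt_floor_add_one x
  have h7 : ((N + 1 : ℕ) : ℝ) ≤ (ramseyRank r k : ℝ) := by exact_mod_cast h5
  push_cast at h7
  linarith

end Pool.Agent.Q110.RK
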