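import Pool.Agent.Q110.RK.Frame
import Pool.Agent.Q121.RK_RNK

/-!
# Colourings given by a symmetric matrix of small rank with an arbitrary diagonal
-/

set_option autoImplicit false

namespace Pool.Agent.Q110.RK

open Finset Module

/-- The colouring with red graph `G` is given by a symmetric matrix over the field with two elements
of rank at most `r` whose entries outside the diagonal are the colours (the diagonal is arbitrary). -/
def ColourRankLe {V : Type} [Fintype V] (G : SimpleGraph V) (r : ℕ) : Prop :=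
  ∃ M : Matrix V V (ZMod 2), (∀ x y, M x y = M y x) ∧
    (∀ x y, x ≠ y → (M x y = 1 ↔ G.Adj x y)) ∧ M.rank ≤ r

/-- The least `n` such that for `N ≥ n` every colouring of the complete graph on `N` vertices which is
given by a symmetric matrix of rank at most `r` with arbitrary diagonal has a monochromatic set of
size `k`. -/
noncomputable def ramseyMinRank (r k : ℕ) : ℕ :=
  sInf {n : ℕ | ∀ N ≥ n, ∀ G : SimpleGraph (Fin N), ColourRankLe G r →
    ∃ S : Finset (Fin N), S.card = k ∧ Mono G S}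

/-- alternating matrices of small rank vanish on a large set -/
lemma zero_set (hfac : S_factor) (hspr : S_spread) {V : Type} [Fintype V] [DecidableEq V]
    {m k : ℕ} (hk : 1 ≤ k) (A : Matrix V V (ZMod 2)) (hs : ∀ x y, A x y = A y x)
    (hd : ∀ x, A x x = 0) (hr : A.rank ≤ 2 * m + 1)
    (hV : (k - 1) * (2 ^ m + 1) < Fintype.card V) :
    ∃ S : Finset V, #S = k ∧ ∀ x ∈ S, ∀ y ∈ S, A x y = 0 := by
  obtain ⟨φ, hφ⟩ := hfac V m A hs hd hr
  obtain ⟨f, hf⟩ := hspr m
  have hcard : #(univ : Finset (Fin (2 ^ m + 1))) * (k - 1) < #(univ : Finset V) := by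
    rw [card_univ, card_univ, Fintype.card_fin, mul_comm]
    exact hV
  obtain ⟨c, -, hc⟩ := exists_lt_card_fiber_of_mul_lt_card_of_maps_to
    (f := fun x : V => f (φ x)) (s := univ) (t := univ) (fun x _ => mem_univ _) hcard
  obtain ⟨S, hS, hSk⟩ := exists_subset_card_eq (show k ≤ #(univ.filter fun x => f (φ x) = c) by
    omega)
  refine ⟨S, hSk, fun x hx y hy => ?_⟩
  rw [hφ x y]
  exact hf _ _ ((mem_filter.1 (hS hx)).2.trans (mem_filter.1 (hS hy)).2.symm)

lemma rank_submatrix_le' {V W : Type} [Fintype V] [Fintype W] [DecidableEq V] [DecidableEq W]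
    (M : Matrix V V (ZMod 2)) (f : W → V) : (M.submatrix f f).rank ≤ M.rank := by
  classical
  have h1 : M.submatrix f f = (Matrix.of fun (i : W) (x : V) => if f i = x then (1 : ZMod 2) else 0) *
      (M * (Matrix.of fun (x : V) (j : W) => if x = f j then (1 : ZMod 2) else 0)) := by
    ext i j
    rw [Matrix.submatrix_apply, Matrix.mul_apply]
    simp only [Matrix.of_apply, Matrix.mul_apply, ite_mul, one_mul, zero_mul, mul_ite, mul_one,
      mul_zero, sum_ite_eq', sum_ite_eq, mem_univ, if_true]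
  rw [h1]
  exact (Matrix.rank_mul_le_right _ _).trans (Matrix.rank_mul_le_left _ _)

lemma rank_add_J {W : Type} [Fintype W] [DecidableEq W] (M : Matrix W W (ZMod 2)) :
    (M + Matrix.of fun _ _ => (1 : ZMod 2)).rank ≤ M.rank + 1 := by
  classical
  refine (Pool.Agent.Q121.RK.rank_add_le _ _).trans (Nat.add_le_add_left ?_ _)
  have h1 : (Matrix.of fun (_ _ : W) => (1 : ZMod 2)) =
      Matrix.vecMulVec (fun _ => 1) (fun _ => 1) := by
    ext i j
    simp [Matrix.vecMulVec_apply]
  rw [h1]
  exact Matrix.rank_vecMulVec_le _ _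

/-- many vertices have a monochromatic `K_k`, arbitrary diagonal -/
lemma min_aux (hfac : S_factor) (hspr : S_spread) {r k N : ℕ} (hk : 1 ≤ k)
    (hN : 2 * ((k - 1) * (2 ^ ((r + 1) / 2) + 1)) + 1 ≤ N) (G : SimpleGraph (Fin N))
    (hG : ColourRankLe G r) : ∃ S : Finset (Fin N), #S = k ∧ Mono G S := by
  classical
  obtain ⟨M, hsym, hadj, hr⟩ := hG
  set m := (r + 1) / 2 with hm
  have h01 : ∀ a : ZMod 2, a ≠ 0 ↔ a = 1 := by decide
  have hsplit : #(univ.filter fun x : Fin N => M x x = 0) +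
      #(univ.filter fun x : Fin N => ¬ M x x = 0) = N := by
    rw [card_filter_add_card_filter_not, card_univ, Fintype.card_fin]
  have hcase : (k - 1) * (2 ^ m + 1) < #(univ.filter fun x : Fin N => M x x = 0) ∨
      (k - 1) * (2 ^ m + 1) < #(univ.filter fun x : Fin N => ¬ M x x = 0) := by
    omega
  rcases hcase with hc | hc
  · have hc' : (k - 1) * (2 ^ m + 1) < Fintype.card {x : Fin N // M x x = 0} := by
      rwa [Fintype.card_subtype]
    obtain ⟨S, hSk, hS⟩ := zero_set hfac hspr hk
      (M.submatrix (fun x : {x : Fin N // M x x = 0} => x.1) (fun x => x.1))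
      (fun x y => by rw [Matrix.submatrix_apply, Matrix.submatrix_apply, hsym])
      (fun x => by rw [Matrix.submatrix_apply]; exact x.2)
      ((rank_submatrix_le' M _).trans (by omega)) hc'
    refine ⟨S.map (Function.Embedding.subtype _), by rw [card_map, hSk], Or.inr ?_⟩
    intro x hx y hy hxy
    rw [mem_coe, mem_map] at hx hy
    obtain ⟨x', hx', rfl⟩ := hx
    obtain ⟨y', hy', rfl⟩ := hy
    rw [SimpleGraph.compl_adj]
    refine ⟨hxy, fun h => ?_⟩
    have h1 := (hadj _ _ hxy).2 h
    have h2 := hS x' hx' y' hy'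
    rw [Matrix.submatrix_apply] at h2
    rw [show M ((Function.Embedding.subtype fun x => M x x = 0) x')
      ((Function.Embedding.subtype fun x => M x x = 0) y') = M x'.1 y'.1 from rfl, h2] at h1
    exact zero_ne_one h1
  · have hc' : (k - 1) * (2 ^ m + 1) < Fintype.card {x : Fin N // ¬ M x x = 0} := by
      rwa [Fintype.card_subtype]
    set A : Matrix {x : Fin N // ¬ M x x = 0} {x : Fin N // ¬ M x x = 0} (ZMod 2) :=
      M.submatrix Subtype.val Subtype.val + Matrix.of fun _ _ => (1 : ZMod 2) with hA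
    have hAapp : ∀ x y : {x : Fin N // ¬ M x x = 0}, A x y = M x.1 y.1 + 1 := by
      intro x y
      rw [hA, Matrix.add_apply, Matrix.submatrix_apply, Matrix.of_apply]
    obtain ⟨S, hSk, hS⟩ := zero_set hfac hspr hk A
      (fun x y => by rw [hAapp, hAapp, hsym])
      (fun x => by
        rw [hAapp, (h01 _).1 x.2]
        rfl)
      ((rank_add_J _).trans (by
        have := rank_submatrix_le' M (Subtype.val : {x : Fin N // ¬ M x x = 0} → Fin N)
        omega)) hc'
    refine ⟨S.map (Function.Embedding.subtype _), by rw [card_map, hSk], Or.inl ?_⟩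
    intro x hx y hy hxy
    rw [mem_coe, mem_map] at hx hy
    obtain ⟨x', hx', rfl⟩ := hx
    obtain ⟨y', hy', rfl⟩ := hy
    refine (hadj _ _ hxy).1 ?_
    have h2 := hS x' hx' y' hy'
    rw [hAapp] at h2
    have h3 : ∀ a : ZMod 2, a + 1 = 0 → a = 1 := by decide
    exact h3 _ h2

/-- the Ramsey numbers of the larger class -/
theorem minRank_bounds (hfac : S_factor) (hspr : S_spread) (r k : ℕ) (hk : 1 ≤ k) :
    ramseyRank r k ≤ ramseyMinRank r k ∧
      ramseyMinRank r k ≤ 2 * ((k - 1) * (2 ^ ((r + 1) / 2) + 1)) + 1 := by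
  classical
  have hmem : 2 * ((k - 1) * (2 ^ ((r + 1) / 2) + 1)) + 1 ∈
      {n : ℕ | ∀ N ≥ n, ∀ G : SimpleGraph (Fin N), ColourRankLe G r →
        ∃ S : Finset (Fin N), S.card = k ∧ Mono G S} := by
    intro N hN G hG
    exact min_aux hfac hspr hk hN G hG
  refine ⟨?_, Nat.sInf_le hmem⟩
  refine Nat.sInf_le ?_
  intro N hN G hG
  refine Nat.sInf_mem ⟨_, hmem⟩ N hN G ⟨G.adjMatrix (ZMod 2), ?_, ?_, ?_⟩
  · intro x y
    simp only [SimpleGraph.adjMatrix_apply, G.adj_comm x y]
  · intro x y _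
    rw [SimpleGraph.adjMatrix_apply]
    by_cases h : G.Adj x y
    · simp [h]
    · simp [h]
  · unfold rankTwo at hG
    convert hG

/-- upper growth rate of the larger class -/
theorem minRank_growth (hfac : S_factor) (hspr : S_spread) (c : ℝ) (hc : 0 ≤ c) (ε : ℝ)
    (hε : 0 < ε) : ∃ K : ℕ, ∀ k ≥ K,
      Real.log (ramseyMinRank ⌊2 * c * k⌋₊ k) / k ≤ c * Real.log 2 + ε := by
  -- `log (16 k) / k → 0`
  have hlim : Filter.Tendsto (fun k : ℕ => Real.log (16 * (k : ℝ)) / k) Filter.atTop
      (nhds 0) := by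
    have h1 : Filter.Tendsto (fun x : ℝ => Real.log x / (1 / 16 * x + 0)) Filter.atTop
        (nhds 0) := by
      have := Real.isLittleO_log_id_atTop.tendsto_div_nhds_zero
      have h2 := this.const_mul (16 : ℝ)
      rw [mul_zero] at h2
      refine h2.congr fun x => ?_
      simp only [id]
      by_cases hx : x = 0
      · simp [hx]
      · rw [add_zero, one_div, ← div_div, div_inv_eq_mul]
        ring
    have h3 : Filter.Tendsto (fun k : ℕ => (16 : ℝ) * (k : ℝ)) Filter.atTop Filter.atTop :=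
      Filter.Tendsto.const_mul_atTop (by norm_num) tendsto_natCast_atTop_atTop
    refine (h1.comp h3).congr fun k => ?_
    simp only [Function.comp]
    congr 1
    ring
  obtain ⟨K, hK⟩ := (hlim.eventually (gt_mem_nhds hε)).exists_forall_of_atTop
  refine ⟨max K 1, fun k hk => ?_⟩
  have hkK : K ≤ k := (le_max_left _ _).trans hk
  have hk1 : 1 ≤ k := (le_max_right _ _).trans hk
  have hkr : (1 : ℝ) ≤ k := by exact_mod_cast hk1
  set r := ⌊2 * c * (k : ℝ)⌋₊ with hr
  have hup := (minRank_bounds hfac hspr r k hk1).2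
  have hlog := hK k hkK
  by_cases h0 : ramseyMinRank r k = 0
  · rw [h0]
    simp only [Nat.cast_zero, Real.log_zero, zero_div]
    have := Real.log_pos (show (1 : ℝ) < 2 by norm_num)
    positivity
  · have hr2 : ((r / 2 : ℕ) : ℝ) ≤ c * k := by
      have h1 : ((r / 2 : ℕ) : ℝ) ≤ (r : ℝ) / 2 := Nat.cast_div_le
      have h2 : (r : ℝ) ≤ 2 * c * k := Nat.floor_le (by positivity)
      linarith
    have hpow : ((2 : ℝ) ^ ((r + 1) / 2) : ℝ) ≤ 2 * 2 ^ (c * (k : ℝ)) := by
      have h1 : ((2 : ℝ) ^ ((r + 1) / 2) : ℝ) ≤ 2 ^ (r / 2 + 1) :=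
        pow_le_pow_right₀ (by norm_num) (by omega)
      have h2 : (2 : ℝ) ^ (r / 2 : ℕ) ≤ 2 ^ (c * (k : ℝ)) := by
        rw [← Real.rpow_natCast]
        exact Real.rpow_le_rpow_of_exponent_le (by norm_num) hr2
      rw [pow_succ] at h1
      linarith
    have hX : (1 : ℝ) ≤ 2 ^ (c * (k : ℝ)) := Real.one_le_rpow (by norm_num) (by positivity)
    have hR : (ramseyMinRank r k : ℝ) ≤ 16 * k * 2 ^ (c * (k : ℝ)) := by
      have h1 : (ramseyMinRank r k : ℝ) ≤
          2 * (((k - 1 : ℕ) : ℝ) * ((2 : ℝ) ^ ((r + 1) / 2) + 1)) + 1 := by exact_mod_cast hup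
      have h2 : ((k - 1 : ℕ) : ℝ) ≤ k := by exact_mod_cast Nat.sub_le k 1
      have h3 : ((k - 1 : ℕ) : ℝ) * ((2 : ℝ) ^ ((r + 1) / 2) + 1) ≤
          k * (3 * 2 ^ (c * (k : ℝ))) := by
        apply mul_le_mul h2 _ (by positivity) (by positivity)
        linarith
      have h4 : (1 : ℝ) ≤ k * 2 ^ (c * (k : ℝ)) := one_le_mul_of_one_le_of_one_le hkr hX
      linarith
    have hRpos : (0 : ℝ) < ramseyMinRank r k := by
      exact_mod_cast Nat.pos_of_ne_zero h0
    have h5 : Real.log (ramseyMinRank r k) ≤ Real.log (16 * k) + c * k * Real.log 2 := by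
      calc Real.log (ramseyMinRank r k) ≤ Real.log (16 * k * 2 ^ (c * (k : ℝ))) :=
            Real.log_le_log hRpos hR
        _ = Real.log (16 * k) + c * k * Real.log 2 := by
            rw [Real.log_mul (by positivity) (by positivity), Real.log_rpow (by norm_num)]
    have hk0 : (0 : ℝ) < k := by linarith
    rw [div_le_iff₀ hk0]
    have h6 : Real.log (16 * k) < ε * k := by
      rwa [div_lt_iff₀ hk0] at hlog
    nlinarith

end Pool.Agent.Q110.RK
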