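import Pool.Agent.Q110.RK.Defs

/-!
# Statements of the jobs of project RK

Definitions (`Vec m`, `om`, `omB`, `qu`, `Mono`, `rankTwo`, `ramseyRank`) and basic lemmas are in
`Pool.Agent.Q110.RK.Defs`; everything there is proved. Each `S_xxx` below is one job.
-/

set_option autoImplicit false

namespace Pool.Agent.Q110.RK

open Finset Module

/-- JOB SPR (a symplectic spread). For `m = 0` all values of `om` are `0` and `f = 0` works
(`Fin m` is empty). Let `m ≥ 1`, `K = GaloisField 2 m`, so `finrank (ZMod 2) K = m` and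
`Nat.card K = 2 ^ m` (`GaloisField.finrank`, `GaloisField.card`). Let `b` be a basis of `K` over
`ZMod 2` indexed by `Fin m` and `b'` the dual basis for the trace form
(`traceForm_nondegenerate`, `LinearMap.BilinForm.dualBasis`), so
`trace (b' i * b j) = if j = i then 1 else 0`. For `v : Vec m` put `X v = ∑ (v i).1 • b i`,
`Y v = ∑ (v i).2 • b' i`. Then `trace (X v * Y w + Y v * X w) = om v w`. Let `g v : Option K` be
`none` if `X v = 0` and `some (Y v / X v)` otherwise. If `g v = g w`, then `X v * Y w + Y v * X w = 0`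
(both `X` are `0`, or `Y v = l * X v`, `Y w = l * X w` and the sum is `2 l X v X w = 0`), so
`om v w = 0`. Finally `Option K` has `2 ^ m + 1` elements. -/
def S_spread : Prop := ∀ m : ℕ, ∃ f : Vec m → Fin (2 ^ m + 1), ∀ v w : Vec m,
  f v = f w → om v w = 0

/-- JOB FAC (alternating matrices of rank at most `2 m + 1` over `ZMod 2` come from `om`).
Induction on `m` (for all `A`). If `A = 0` take `φ = 0`. Otherwise `A x₀ y₀ = 1` for some `x₀`, `y₀`
(`x₀ ≠ y₀`). Put `A' x y = A x y + A x x₀ * A y y₀ + A x y₀ * A y x₀`; it is again symmetric with zero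
diagonal (characteristic `2`), its rows and columns of `x₀` and `y₀` are `0`, and
`A' = A * P` with `P z y = [z = y] + [z = x₀] * A y y₀ + [z = y₀] * A y x₀`. So the range of `A'`
(as a linear map, `Matrix.mulVecLin`) is contained in the range `W` of `A` and in the kernel of the
map `u ↦ (u x₀, u y₀)`; this map is surjective on `W` (the columns of `x₀`, `y₀` of `A` go to `(0, 1)`
and `(1, 0)`). By rank-nullity `rank A' + 2 ≤ rank A`. So `m ≥ 1` (if `m = 0`, `rank A ≤ 1` is a
contradiction) and `A' x y = om (φ' x) (φ' y)` with `φ' : V → Vec (m - 1)`. Take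
`φ x = Fin.cons (A x x₀, A x y₀) (φ' x)`. -/
def S_factor : Prop := ∀ (V : Type) [Fintype V] [DecidableEq V] (m : ℕ)
  (A : Matrix V V (ZMod 2)), (∀ x y, A x y = A y x) → (∀ x, A x x = 0) → A.rank ≤ 2 * m + 1 →
  ∃ φ : V → Vec m, ∀ x y, A x y = om (φ x) (φ y)

/-- JOB RNK, first part: the matrix `om (φ x) (φ y)` is the product of a matrix with columns
indexed by `Fin m × Bool` (entries `(φ x i).1`, `(φ x i).2`) and another one, so its rank is at
most `2 m` (`Matrix.rank_mul_le_left`, `Matrix.rank_le_card_width`). -/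
def S_rank : Prop := ∀ (V : Type) [Fintype V] [DecidableEq V] (m : ℕ) (φ : V → Vec m),
  (Matrix.of fun x y => om (φ x) (φ y) : Matrix V V (ZMod 2)).rank ≤ 2 * m

/-- JOB RNK, second part: use `S_rank` for `V = {v // v ∈ S}`: the matrix `J - 1` (`J` all ones) has
rank at least `#S - 1`, because `1 = J + (J - 1)` up to sign has rank `#S` and `J` has rank at most
`1`. -/
def S_clique : Prop := ∀ (m : ℕ) (S : Finset (Vec m)),
  (∀ v ∈ S, ∀ w ∈ S, v ≠ w → om v w = 1) → #S ≤ 2 * m + 1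

/-- JOB ISO, first part: `U` is contained in its orthogonal, which has dimension
`2 m - finrank U` (`finrank_orthogonal`, `mem_orthogonal` in Defs). -/
def S_iso_finrank : Prop := ∀ (m : ℕ) (U : Submodule (ZMod 2) (Vec m)),
  (∀ u ∈ U, ∀ w ∈ U, om u w = 0) → finrank (ZMod 2) U ≤ m

/-- JOB ISO, second part: `Submodule.span_induction` twice. -/
def S_iso_span : Prop := ∀ (m : ℕ) (S : Set (Vec m)), (∀ v ∈ S, ∀ w ∈ S, om v w = 0) →
  ∀ u ∈ Submodule.span (ZMod 2) S, ∀ w ∈ Submodule.span (ZMod 2) S, om u w = 0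

/-- JOB ISO, third part: `S` is contained in its span `U`, which has at most `2 ^ m` elements
(`card_submodule` in Defs); if `0 ∉ S`, then `S ∪ {0}` is contained in `U`. -/
def S_iso_card : Prop := ∀ (m : ℕ) (S : Finset (Vec m)), (∀ v ∈ S, ∀ w ∈ S, om v w = 0) →
  #S ≤ 2 ^ m ∧ (0 ∉ S → #S ≤ 2 ^ m - 1)

/-- JOB ISO, fourth part: if `S` is not empty let `w₀ ∈ S` and `U` the span of `S`. On `U` the
function `qu` is additive (`qu_add` in Defs), so `v ↦ v + w₀` is an injection from `S` into the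
elements of `U` with `qu = 0`, which are not in `S`. So `2 #S ≤ #U ≤ 2 ^ (m + 1)`. -/
def S_iso_qu : Prop := ∀ (m : ℕ) (S : Finset (Vec (m + 1))),
  (∀ v ∈ S, ∀ w ∈ S, om v w = 0) → (∀ v ∈ S, qu v = 1) → #S ≤ 2 ^ m

/-- JOB CNT: the number of vectors with `qu = 1`. Induction on `m`, together with the number of the
`v : Vec m` with `∑ i, (v i).1 * (v i).2 = 0`, which is `(4 ^ m + 2 ^ m) / 2`. Or with
`χ : ZMod 2 → ℤ`, `χ 0 = 1`, `χ 1 = -1`, `χ (a + b) = χ a * χ b`: `∑ v, χ (qu v)` is the product over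
`i` of `∑ p : ZMod 2 × ZMod 2, χ (p.1 * p.2)` `= 2` for `i ≠ 0` and
`∑ p, χ (p.1 * p.2 + p.1 + p.2) = -2` for `i = 0` (`Finset.prod_univ_sum` / `Fintype.piFinset`, or
`Fin.consEquiv` and induction), i.e. `- 2 ^ (m + 1)`; so
`#{qu = 1} = (4 ^ (m + 1) + 2 ^ (m + 1)) / 2`. -/
def S_card_qu : Prop := ∀ m : ℕ,
  #(univ.filter fun v : Vec (m + 1) => qu v = 1) = 2 ^ m * (2 ^ (m + 1) + 1)

/-- JOB ICT (number of isotropic `k`-tuples). More generally, by induction on `k`: for every
subspace `U` on which `om` vanishes, with `finrank U + s = m`, the number of `v : Fin k → Vec m` with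
`om u (v i) = 0` for all `u ∈ U` and `om (v i) (v j) = 0` for all `i`, `j` is at most
`2 ^ (k + m * k + s * (s + 1) / 2)`. Step: let `d = finrank U`. The first vector `w = v 0` is in `U^⊥`,
the others are orthogonal to `U + ⟨w⟩`. There are at most `2 ^ d ≤ 2 ^ m` vectors `w ∈ U`; for each
of them the number of the other vectors is at most `2 ^ (k + m k + s (s + 1) / 2)`. If `w ∉ U`, then
`U + ⟨w⟩` is isotropic of dimension `d + 1 ≤ m` (`iso_finrank`), so `s ≥ 1`, the number of these `w` is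
at most `#U^⊥ = 2 ^ (2 m - d) = 2 ^ (m + s)` and for each of them the number of the other vectors is at
most `2 ^ (k + m k + (s - 1) s / 2)`; `m + s + (s - 1) s / 2 = m + s (s + 1) / 2`. Sum: at most
`2 ^ (k + m k + s (s + 1) / 2) (2 ^ m + 2 ^ m)`. For the statement take `U = ⊥`, `s = m`. You may
assume `S_iso_finrank`. -/
def S_iso_tuples : Prop := ∀ m k : ℕ,
  #(univ.filter fun v : Fin k → Vec m => ∀ i j, om (v i) (v j) = 0) ≤
    2 ^ (k + m * k + m * (m + 1) / 2)

/-- JOB CCT (number of `k`-tuples with all products `1`). Let `C k` be this number. Claim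
`C (k + 2) * 2 ^ k ≤ C (k + 1) * 2 ^ (2 * m)`, and `C 0 = 1`, `C 1 ≤ 2 ^ (2 m)`; the statement follows by
induction (`(k-1)*(k-2)/2` increases by `k` from `k + 1` to `k + 2`).
Proof of the claim: a tuple of length `k + 2` is a tuple `v` of length `k + 1` (first `k + 1` vectors)
with the same property and a vector `w` with `om (v i) w = 1` for all `i`. The vectors
`v 0, ..., v (k-1)` are linearly independent: if `∑_{i<k} c i • v i = 0`, then the product with `v k`
gives `∑ c i = 0` and the product with `v j` gives `∑_{i ≠ j} c i = 0`, so `c j = 0`. The number of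
the `w` with `om (v i) w = 1` for all `i < k` is `0` or the number of elements of the orthogonal of
the span of these `k` vectors (translate by one solution), i.e. `2 ^ (2 m - k)`, `k ≤ 2 m`
(`finrank_orthogonal`, `card_submodule` in Defs). So for each `v` the number of `w`, times `2 ^ k`, is
at most `2 ^ (2 m)`. -/
def S_clique_tuples : Prop := ∀ m k : ℕ,
  #(univ.filter fun v : Fin k → Vec m => ∀ i j, i ≠ j → om (v i) (v j) = 1) *
    2 ^ ((k - 1) * (k - 2) / 2) ≤ 2 ^ (2 * m * k)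

/-- JOB UNI (union bound). There are `4 ^ (m N)` maps `φ : Fin N → Vec m` (`card_Vec`). For a set `S` of
`k` vertices, with the bijection `S.equivOfFin`/`S.orderEmbOfFin`, the number of maps `φ` whose
restriction to `S` has all products `0` is `I * 4 ^ (m (N - k))`, where `I` is the number of tuples
`v : Fin k → Vec m` with all products `0` (split `Fin N → Vec m` into the restrictions to `S` and to its
complement, e.g. `Equiv.piEquivPiSubtypeProd`, or bound the fibres of the restriction map);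
similarly for the second property with `C`. So if every `φ` had a bad `S`, then
`4 ^ (m N) ≤ (N choose k) (I + C) 4 ^ (m (N - k))`, which contradicts the hypothesis (if `k > N` there
is no `S` at all). -/
def S_union : Prop := ∀ m k N : ℕ,
  N.choose k * (#(univ.filter fun v : Fin k → Vec m => ∀ i j, om (v i) (v j) = 0) +
    #(univ.filter fun v : Fin k → Vec m => ∀ i j, i ≠ j → om (v i) (v j) = 1)) < 4 ^ (m * k) →
  ∃ φ : Fin N → Vec m, ∀ S : Finset (Fin N), #S = k →
    (¬ ∀ x ∈ S, ∀ y ∈ S, om (φ x) (φ y) = 0) ∧ ¬ ∀ x ∈ S, ∀ y ∈ S, x ≠ y → om (φ x) (φ y) = 1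

/-- JOB NUM (numerical). First part: `(N choose k) ≤ N ^ k / k!` and `k! ≥ (k / e) ^ k`
(`Nat.choose_le_pow_div`, `Nat.factorial_lt`... or `Real.exp` series: `k ^ k / k! ≤ e ^ k`,
`Real.pow_div_factorial_le_exp`), so `(N choose k) ≤ (e N / k) ^ k ≤ (e / 16) ^ k 2 ^ (m k - m² / 2)`, and
the left side is at most `2 ^ (2 m k) (e / 16) ^ k 2 ^ (k + 1 + m / 2)`. As `m ≤ k` it is enough that
`2 (2 √2 e / 16) ^ k < 1`, true for `k ≥ 1` since `2 √2 e / 16 < 0.4806` (`e < 2.7182818286`,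
`√2 < 1.4143`).
Second part: for all `m`, `k`: `2 m k ≤ k + m k + m (m + 1) / 2 + (k - 1) (k - 2) / 2`, i.e. for real
numbers `m k ≤ k + m (m + 1) / 2 + (k - 1) (k - 2) / 2`, i.e. `0 ≤ (m - k)² + (m - k) + 2` for `k ≥ 1`
(`m (m + 1)` and `(k - 1) (k - 2)` are even, natural division is exact). -/
def S_num : Prop :=
  (∀ m k N : ℕ, 1 ≤ m → m ≤ k → (N : ℝ) ≤ k / 16 * 2 ^ ((m : ℝ) - (m : ℝ) ^ 2 / (2 * k)) →
    N.choose k * 2 ^ (k + 1 + m * k + m * (m + 1) / 2) < 4 ^ (m * k)) ∧
  ∀ m k : ℕ, 2 * m * k ≤ k + m * k + m * (m + 1) / 2 + (k - 1) * (k - 2) / 2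

/-- JOB FRM. `ramseyRank r k` is an `sInf` of a set `T`. (1) If `N > (k - 1) (2 ^ (r / 2) + 1)`, `k ≥ 1`,
and `G` has rank at most `r ≤ 2 (r / 2) + 1`, then by `S_factor` the adjacency matrix is
`om (φ x) (φ y)`, `φ x : Vec (r / 2)`, and by `S_spread` and the pigeonhole principle
(`Finset.exists_lt_card_fiber_of_mul_lt_card_of_maps_to`) more than `k - 1` vertices have the same
`f (φ x)`: they are independent; take `k` of them. So `(k-1)(2^(r/2)+1)+1 ∈ T`.
(2) If `φ : V → Vec m` is such that sets with all products `0`, and sets with all products `1`,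
have fewer than `k` elements, then `card V < ramseyRank r k` for `2 m ≤ r`: otherwise
`ramseyRank r k ≤ card V` and, as `ramseyRank r k ∈ T` (`Nat.sInf_mem`, `T` is not empty by (1); note
`k ≥ 1` because the empty set has fewer than `k` elements), the graph `G` on `Fin (card V)` (transported
by `Fintype.equivFin V`) with `x ~ y ↔ om (φ x) (φ y) = 1`, which has rank at most `2 m` by `S_rank`,
has a monochromatic set of size `k`, contradiction. -/
def S_frame : Prop :=
  (∀ r k : ℕ, 1 ≤ k → ramseyRank r k ≤ (k - 1) * (2 ^ (r / 2) + 1) + 1) ∧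
  ∀ (V : Type) [Fintype V] [DecidableEq V] (m k r : ℕ) (φ : V → Vec m), 2 * m ≤ r →
    (∀ S : Finset V, (∀ x ∈ S, ∀ y ∈ S, om (φ x) (φ y) = 0) → #S < k) →
    (∀ S : Finset V, (∀ x ∈ S, ∀ y ∈ S, x ≠ y → om (φ x) (φ y) = 1) → #S < k) →
    Fintype.card V < ramseyRank r k

/-- JOB BLW (blow-ups). Let `k - 1 = a (2 ^ (m + 1) - 1) + b 2 ^ m`, `2 (m + 1) + 1 < k`,
`V = (Fin a × {v : Vec (m + 1) // v ≠ 0}) ⊕ (Fin b × {v : Vec (m + 1) // qu v = 1})`, `φ` the vector. By
`card_Vec` and `S_card_qu` `card V = (2 ^ (m + 1) + 1) (k - 1)`. A set `S` with all products `0` has at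
most `2 ^ (m + 1) - 1` (`2 ^ m`) elements in each of the `a` (`b`) copies (`S_iso_card`, `S_iso_qu`), so
at most `k - 1`. A set with all products `1` (for different elements) is mapped injectively (`om v v = 0`)
so it has at most `2 (m + 1) + 1 < k` elements (`S_clique`). Now `S_frame` (2) for `m + 1`.
The numbers `a`, `b`: with `p = 2 ^ (m + 1) - 1`, `q = 2 ^ m`, `2 q = p + 1`: take
`b = (2 (k - 1)) % p` and `a = (k - 1 - q b) / p`; `q b ≡ k - 1 mod p` and
`q b ≤ q (p - 1) = 2 ^ m (2 ^ (m + 1) - 2) ≤ k - 1` because `4 ^ (m + 1) ≤ 2 k`. (`p = 1` for `m = 0`: then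
`b = 0`.) The condition `2 (m + 1) + 1 < k` follows from `4 ≤ k` and `4 ^ (m + 1) ≤ 2 k`. You may assume
`S_frame`, `S_card_qu`, `S_iso_card`, `S_iso_qu`, `S_clique`. -/
def S_blow : Prop := ∀ m k r : ℕ, 4 ≤ k → 4 ^ (m + 1) ≤ 2 * k → 2 * (m + 1) ≤ r →
  (k - 1) * (2 ^ (m + 1) + 1) < ramseyRank r k

/-- JOB GRW (growth rates). Assume `1 / 16 k 2 ^ (m - m² / (2 k)) < R_r(k)` for `1 ≤ m ≤ k`,
`2 m ≤ r` and `R_r(k) ≤ (k - 1) (2 ^ (r / 2) + 1) + 1` for `k ≥ 1`, where `R = ramseyRank`. Then for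
`0 ≤ c ≤ 1` and `ε > 0`, for all large `k`, with `r = ⌊2 c k⌋`, the number
`log R_r(k) / k` is between `(c - c² / 2) log 2 - ε` and `c log 2 + ε`. (For `c = 0` the lower bound is
`- ε`, clear as `R ≥ 1`: otherwise `R = 0` and `Real.log 0 = 0`. For `c > 0` take `m = ⌊c k⌋ ≥ 1`, `2 m ≤ r`;
`m ≥ c k - 1`, `m² ≤ c² k²`.) -/
def S_growth : Prop :=
  (∀ m k r : ℕ, 1 ≤ m → m ≤ k → 2 * m ≤ r →
    (k : ℝ) / 16 * 2 ^ ((m : ℝ) - (m : ℝ) ^ 2 / (2 * k)) < ramseyRank r k) →
  (∀ r k : ℕ, 1 ≤ k → ramseyRank r k ≤ (k - 1) * (2 ^ (r / 2) + 1) + 1) →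
  ∀ c : ℝ, 0 ≤ c → c ≤ 1 → ∀ ε : ℝ, 0 < ε → ∃ K : ℕ, ∀ k ≥ K,
    (c - c ^ 2 / 2) * Real.log 2 - ε ≤ Real.log (ramseyRank ⌊2 * c * k⌋₊ k) / k ∧
    Real.log (ramseyRank ⌊2 * c * k⌋₊ k) / k ≤ c * Real.log 2 + ε

end Pool.Agent.Q110.RK
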